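import Pool.Agent.Run7.h932.DS.Stm

set_option autoImplicit false

/-! Piece LBC of project DS: many proper sequences with given nearly balanced counts. -/

namespace Pool.Agent.Run7.h59.DS.LBCp

open Finset Classical
open _root_.Run7.h932.DS

/-- sequences of pairs -/
noncomputable def eqv (A : Type) (m : ℕ) : (Fin m → A × A) ≃ (HE m → A) where
  toFun q h := if h.2 then (q h.1).2 else (q h.1).1
  invFun c j := (c (j, false), c (j, true))
  left_inv q := by
    funext j
    simp
  right_inv c := by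
    funext h
    rcases h with ⟨j, b⟩
    cases b <;> simp

/-- the count of a colour in a sequence of pairs -/
noncomputable def xc {n k : ℕ} (q : Fin n → Fin k × Fin k) (a : Fin k) : ℕ :=
  ∑ i, ((if (q i).1 = a then 1 else 0) + (if (q i).2 = a then 1 else 0))

theorem cnt_eqv {m k : ℕ} (q : Fin m → Fin k × Fin k) (a : Fin k) :
    cnt (eqv (Fin k) m q) a = xc q a := by
  unfold cnt xc
  rw [Finset.card_filter, Fintype.sum_prod_type]
  refine Finset.sum_congr rfl fun j _ => ?_
  rw [Fintype.sum_bool, add_comm]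
  simp [eqv]

theorem xc_cons {n k : ℕ} (x : Fin k × Fin k) (q : Fin n → Fin k × Fin k) (a : Fin k) :
    xc (Fin.cons x q : Fin (n + 1) → Fin k × Fin k) a =
      ((if x.1 = a then 1 else 0) + (if x.2 = a then 1 else 0)) + xc q a := by
  unfold xc
  rw [Fin.sum_univ_succ]
  simp

theorem xc_append {n s k : ℕ} (q : Fin n → Fin k × Fin k) (e : Fin s → Fin k × Fin k)
    (a : Fin k) : xc (Fin.append q e) a = xc q a + xc e a := by
  unfold xc
  rw [Fin.sum_univ_add]
  simp

theorem sum_xc {n k : ℕ} (q : Fin n → Fin k × Fin k) : ∑ a, xc q a = 2 * n := by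
  unfold xc
  rw [Finset.sum_comm]
  simp [Finset.sum_add_distrib, mul_comm]

/-- pairing -/
theorem pairing {k : ℕ} : ∀ (s : ℕ) (E : Fin k → ℕ), ∑ a, E a = 2 * s → (∀ a, E a ≤ s) →
    ∃ e : Fin s → Fin k × Fin k, (∀ i, (e i).1 ≠ (e i).2) ∧ ∀ a, xc e a = E a := by
  intro s
  induction s with
  | zero =>
    intro E hE _
    refine ⟨Fin.elim0, fun i => i.elim0, fun a => ?_⟩
    have : E a = 0 := by
      have h := Finset.sum_eq_zero_iff.1 (by simpa using hE : ∑ a, E a = 0)
      exact h a (mem_univ a)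
    rw [this]
    simp [xc]
  | succ s ih =>
    intro E hE hb
    have hne : (univ : Finset (Fin k)).Nonempty := by
      rw [Finset.nonempty_iff_ne_empty]
      intro h
      rw [h] at hE
      simp at hE
    obtain ⟨a, -, ha⟩ := Finset.exists_max_image univ E hne
    have hsa : E a + ∑ x ∈ univ.erase a, E x = 2 * (s + 1) := by
      rw [Finset.add_sum_erase univ E (mem_univ a), hE]
    have hba := hb a
    have hne2 : (univ.erase a : Finset (Fin k)).Nonempty := by
      rw [Finset.nonempty_iff_ne_empty]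
      intro h
      rw [h] at hsa
      simp at hsa
      omega
    obtain ⟨b, hbm, hbmax⟩ := Finset.exists_max_image (univ.erase a) E hne2
    have hab : b ≠ a := (Finset.mem_erase.1 hbm).1
    have hEb : 0 < E b := by
      rcases Nat.eq_zero_or_pos (E b) with h0 | h0
      · exfalso
        have : ∑ x ∈ univ.erase a, E x = 0 := Finset.sum_eq_zero fun x hx => by
          have := hbmax x hx
          omega
        omega
      · exact h0
    have hEa : 0 < E a := lt_of_lt_of_le hEb (ha b (mem_univ b))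
    set E' : Fin k → ℕ := fun c => E c - ((if a = c then 1 else 0) + (if b = c then 1 else 0))
      with hE'
    have hle : ∀ c, (if a = c then 1 else 0) + (if b = c then 1 else 0) ≤ E c := by
      intro c
      by_cases h1 : a = c
      · subst h1
        rw [if_pos rfl, if_neg hab]
        omega
      · by_cases h2 : b = c
        · subst h2
          rw [if_neg h1, if_pos rfl]
          omega
        · rw [if_neg h1, if_neg h2]
          omega
    have hE'' : ∀ c, ((if a = c then 1 else 0) + (if b = c then 1 else 0)) + E' c = E c := by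
      intro c
      have := hle c
      simp only [hE']
      omega
    have hsum' : ∑ c, E' c = 2 * s := by
      have h1 : ∑ c, (((if a = c then 1 else 0) + (if b = c then 1 else 0)) + E' c) =
          ∑ c, E c := Finset.sum_congr rfl fun c _ => hE'' c
      rw [Finset.sum_add_distrib, Finset.sum_add_distrib, hE] at h1
      simp at h1
      omega
    have hbd : ∀ c, E' c ≤ s := by
      intro c
      have hc := hE'' c
      have hbc := hb c
      by_cases h1 : a = c
      · subst h1
        rw [if_pos rfl, if_neg hab] at hc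
        omega
      · by_cases h2 : b = c
        · subst h2
          rw [if_neg h1, if_pos rfl] at hc
          omega
        · rw [if_neg h1, if_neg h2] at hc
          by_contra hcon
          push Not at hcon
          have hcm : c ∈ (univ.erase a : Finset (Fin k)) :=
            Finset.mem_erase.2 ⟨fun h => h1 h.symm, mem_univ c⟩
          have hcb := hbmax c hcm
          have hca := ha c (mem_univ c)
          have hcm2 : c ∈ (univ.erase a : Finset (Fin k)).erase b :=
            Finset.mem_erase.2 ⟨fun h => h2 h.symm, hcm⟩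
          have e1 : E b + ∑ x ∈ (univ.erase a).erase b, E x = ∑ x ∈ univ.erase a, E x :=
            Finset.add_sum_erase _ E hbm
          have e2 : E c ≤ ∑ x ∈ (univ.erase a).erase b, E x :=
            Finset.single_le_sum (fun _ _ => Nat.zero_le _) hcm2
          omega
    obtain ⟨e, he1, he2⟩ := ih E' hsum' hbd
    refine ⟨Fin.cons (a, b) e, ?_, ?_⟩
    · intro i
      refine Fin.cases ?_ (fun j => ?_) i
      · simpa using hab.symm
      · simpa using he1 j
    · intro c
      rw [xc_cons, he2 c]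
      exact hE'' c

/-- second moment of a sum of independent centred terms -/
theorem mom2 {P : Type} [Fintype P] (f : P → ℝ) (v : ℝ) (h0 : ∑ x, f x = 0)
    (h2 : ∑ x, f x ^ 2 ≤ v * Fintype.card P) : ∀ r : ℕ,
    ∑ q : Fin r → P, (∑ i, f (q i)) ^ 2 ≤ r * v * (Fintype.card P : ℝ) ^ r := by
  intro r
  induction r with
  | zero => simp
  | succ r ih =>
    have e1 : ∑ q : Fin (r + 1) → P, (∑ i, f (q i)) ^ 2 =
        ∑ x : P, ∑ q : Fin r → P, (f x + ∑ i, f (q i)) ^ 2 := by
      rw [← Equiv.sum_comp (Fin.consEquiv fun _ : Fin (r + 1) => P), Fintype.sum_prod_type]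
      refine Finset.sum_congr rfl fun x _ => Finset.sum_congr rfl fun q _ => ?_
      rw [Fin.sum_univ_succ]
      simp [Fin.consEquiv]
    have e2 : ∑ x : P, ∑ q : Fin r → P, (f x + ∑ i, f (q i)) ^ 2 =
        (Fintype.card P : ℝ) ^ r * (∑ x, f x ^ 2) +
          Fintype.card P * ∑ q : Fin r → P, (∑ i, f (q i)) ^ 2 := by
      have e3 : ∀ x : P, ∑ q : Fin r → P, (f x + ∑ i, f (q i)) ^ 2 =
          (Fintype.card P : ℝ) ^ r * f x ^ 2 + f x * (2 * ∑ q : Fin r → P, ∑ i, f (q i)) +
            ∑ q : Fin r → P, (∑ i, f (q i)) ^ 2 := by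
        intro x
        have : ∀ q : Fin r → P, (f x + ∑ i, f (q i)) ^ 2 =
            f x ^ 2 + f x * (2 * ∑ i, f (q i)) + (∑ i, f (q i)) ^ 2 := fun q => by ring
        simp only [this]
        rw [Finset.sum_add_distrib, Finset.sum_add_distrib, Finset.sum_const, Finset.card_univ,
          nsmul_eq_mul, Fintype.card_fun, Fintype.card_fin, ← Finset.mul_sum, ← Finset.mul_sum]
        push_cast
        ring
      simp only [e3]
      rw [Finset.sum_add_distrib, Finset.sum_add_distrib, ← Finset.mul_sum, ← Finset.sum_mul, h0,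
        Finset.sum_const, Finset.card_univ, nsmul_eq_mul]
      ring
    rw [e1, e2]
    have hc : (0 : ℝ) ≤ (Fintype.card P : ℝ) ^ r := by positivity
    have hc1 : (0 : ℝ) ≤ (Fintype.card P : ℝ) := by positivity
    calc (Fintype.card P : ℝ) ^ r * (∑ x, f x ^ 2) +
          Fintype.card P * ∑ q : Fin r → P, (∑ i, f (q i)) ^ 2
        ≤ (Fintype.card P : ℝ) ^ r * (v * Fintype.card P) +
          Fintype.card P * (r * v * (Fintype.card P : ℝ) ^ r) :=
          add_le_add (mul_le_mul_of_nonneg_left h2 hc) (mul_le_mul_of_nonneg_left ih hc1)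
      _ = _ := by push_cast; ring

/-- ordered pairs of different colours -/
abbrev Pr (k : ℕ) : Type := {x : Fin k × Fin k // x.1 ≠ x.2}

theorem sum_Pr {k : ℕ} (h : Fin k → Fin k → ℝ) :
    ∑ x : Pr k, h x.1.1 x.1.2 = (∑ u, ∑ v, h u v) - ∑ u, h u u := by
  have e1 : ∑ x : Pr k, h x.1.1 x.1.2 =
      ∑ x ∈ (univ.filter fun x : Fin k × Fin k => x.1 ≠ x.2), h x.1 x.2 := by
    rw [Finset.sum_subtype (p := fun x : Fin k × Fin k => x.1 ≠ x.2)
      (univ.filter fun x : Fin k × Fin k => x.1 ≠ x.2) (fun x => by simp)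
      (fun x => h x.1 x.2)]
  rw [e1, Finset.sum_filter, Fintype.sum_prod_type, ← Finset.sum_sub_distrib]
  refine Finset.sum_congr rfl fun u _ => ?_
  have e2 : ∀ v, (if (u, v).1 ≠ (u, v).2 then h (u, v).1 (u, v).2 else 0) =
      h u v - (if u = v then h u v else 0) := by
    intro v
    by_cases huv : u = v
    · simp [huv]
    · simp [huv]
  simp only [e2]
  rw [Finset.sum_sub_distrib]
  simp

theorem card_Pr (k : ℕ) : (Fintype.card (Pr k) : ℝ) = k * (k - 1) := by
  have h := sum_Pr (k := k) (fun _ _ => (1 : ℝ))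
  simp at h
  rw [show (Fintype.card (Pr k) : ℝ) = (k : ℝ) * k - k by rw [← h]; simp]
  ring

/-- the centred indicator -/
noncomputable def hh {k : ℕ} (a : Fin k) (u v : Fin k) : ℝ :=
  (if u = a then (1 : ℝ) else 0) + (if v = a then (1 : ℝ) else 0) - 2 / k

theorem hh_sum {k : ℕ} (hk : 1 ≤ k) (a : Fin k) : ∑ x : Pr k, hh a x.1.1 x.1.2 = 0 := by
  have hk' : (k : ℝ) ≠ 0 := by positivity
  rw [sum_Pr]
  unfold hh
  simp only [Finset.sum_sub_distrib, Finset.sum_add_distrib]
  simp
  field_simp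
  ring

theorem hh_sq {k : ℕ} (hk : 1 ≤ k) (a : Fin k) :
    ∑ x : Pr k, hh a x.1.1 x.1.2 ^ 2 ≤ 2 / k * Fintype.card (Pr k) := by
  have hk' : (k : ℝ) ≠ 0 := by positivity
  have hk1 : (0 : ℝ) < k := by positivity
  rw [sum_Pr (fun u v => hh a u v ^ 2), card_Pr]
  have e1 : ∑ u, ∑ v, hh a u v ^ 2 = 2 * (k : ℝ) - 2 := by
    have e2 : ∀ u v : Fin k, hh a u v ^ 2 =
        (1 - 4 / k) * (if u = a then (1 : ℝ) else 0) + (1 - 4 / k) * (if v = a then (1 : ℝ) else 0) +
          2 * ((if u = a then (1 : ℝ) else 0) * (if v = a then (1 : ℝ) else 0)) + 4 / k ^ 2 := by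
      intro u v
      unfold hh
      split_ifs <;> field_simp <;> ring
    simp only [e2, Finset.sum_add_distrib, ← Finset.mul_sum, ← Finset.sum_mul]
    simp
    field_simp
    ring
  rw [e1]
  have e3 : 0 ≤ ∑ u, hh a u u ^ 2 := Finset.sum_nonneg fun _ _ => sq_nonneg _
  have e4 : (2 : ℝ) / k * (k * (k - 1)) = 2 * k - 2 := by
    field_simp
  rw [e4]
  linarith

theorem xc_hh {k r : ℕ} (q : Fin r → Pr k) (a : Fin k) :
    (xc (fun i => (q i).1) a : ℝ) - 2 * r / k = ∑ i, hh a (q i).1.1 (q i).1.2 := by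
  unfold xc hh
  rw [Finset.sum_sub_distrib]
  push_cast
  simp
  ring

theorem markov {Q : Type} [Fintype Q] {k : ℕ} (T : Q → Fin k → ℝ) (w : ℝ) (hw : 0 ≤ w) :
    ((univ.filter fun q => ¬ ∀ a, |T q a| ≤ w).card : ℝ) * w ^ 2 ≤ ∑ a, ∑ q, T q a ^ 2 := by
  rw [Finset.sum_comm, ← nsmul_eq_mul, ← Finset.sum_const]
  refine le_trans (Finset.sum_le_sum fun q hq => ?_)
    (Finset.sum_le_sum_of_subset_of_nonneg (Finset.filter_subset (fun q => ¬ ∀ a, |T q a| ≤ w) univ)
      fun q _ _ => Finset.sum_nonneg fun a _ => sq_nonneg (T q a))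
  have hq' := (mem_filter.1 hq).2
  push Not at hq'
  obtain ⟨a, ha⟩ := hq'
  have h1 : w ^ 2 ≤ |T q a| ^ 2 := pow_le_pow_left₀ hw ha.le 2
  rw [sq_abs] at h1
  exact h1.trans (Finset.single_le_sum (f := fun a => T q a ^ 2) (fun _ _ => sq_nonneg _)
    (mem_univ a))

theorem bad_le (k r : ℕ) (w : ℝ) (hk : 1 ≤ k) (hw : 0 ≤ w) :
    ((univ.filter fun q : Fin r → Pr k => ¬ ∀ a,
      |(xc (fun i => (q i).1) a : ℝ) - 2 * r / k| ≤ w).card : ℝ) * w ^ 2 ≤
        2 * r * ((k : ℝ) * (k - 1)) ^ r := by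
  refine (markov (fun (q : Fin r → Pr k) a => (xc (fun i => (q i).1) a : ℝ) - 2 * r / k) w
    hw).trans ?_
  have h1 : ∀ a : Fin k, ∑ q : Fin r → Pr k, ((xc (fun i => (q i).1) a : ℝ) - 2 * r / k) ^ 2 ≤
      r * (2 / k) * ((Fintype.card (Pr k) : ℝ)) ^ r := by
    intro a
    have h := mom2 (fun x : Pr k => hh a x.1.1 x.1.2) (2 / k) (hh_sum hk a) (hh_sq hk a) r
    refine le_trans (le_of_eq (Finset.sum_congr rfl fun q _ => ?_)) h
    rw [xc_hh]
  refine (Finset.sum_le_sum fun a _ => h1 a).trans (le_of_eq ?_)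
  have hk' : (k : ℝ) ≠ 0 := by positivity
  rw [Finset.sum_const, Finset.card_univ, Fintype.card_fin, nsmul_eq_mul, card_Pr]
  generalize ((k : ℝ) * (k - 1)) ^ r = Z
  field_simp

/-- at least half of the sequences are nearly balanced -/
theorem cheb (k r : ℕ) (w : ℝ) (hk : 1 ≤ k) (hw : 0 ≤ w) (hr : 4 * (r : ℝ) ≤ w ^ 2) :
    ((k : ℝ) * (k - 1)) ^ r ≤ 2 * ((univ.filter fun q : Fin r → Pr k =>
      ∀ a, |(xc (fun i => (q i).1) a : ℝ) - 2 * r / k| ≤ w).card : ℝ) := by
  rcases hw.eq_or_lt with hw0 | hwpos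
  · have hr0 : r = 0 := by
      have : (r : ℝ) ≤ 0 := by rw [← hw0] at hr; nlinarith
      exact_mod_cast le_antisymm this (by positivity)
    subst hr0
    have : (univ.filter fun q : Fin 0 → Pr k =>
        ∀ a, |(xc (fun i => (q i).1) a : ℝ) - 2 * (0 : ℕ) / k| ≤ w) = univ := by
      refine Finset.filter_true_of_mem fun q _ a => ?_
      simp [xc, hw]
    rw [this]
    simp
  · have hcard : (((univ.filter fun q : Fin r → Pr k => ∀ a,
        |(xc (fun i => (q i).1) a : ℝ) - 2 * r / k| ≤ w).card : ℝ) +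
        ((univ.filter fun q : Fin r → Pr k => ¬ ∀ a,
          |(xc (fun i => (q i).1) a : ℝ) - 2 * r / k| ≤ w).card : ℝ)) =
          ((k : ℝ) * (k - 1)) ^ r := by
      have h := Finset.card_filter_add_card_filter_not (s := (univ : Finset (Fin r → Pr k)))
        (fun q : Fin r → Pr k => ∀ a, |(xc (fun i => (q i).1) a : ℝ) - 2 * r / k| ≤ w)
      rw [Finset.card_univ, Fintype.card_fun, Fintype.card_fin] at h
      rw [← card_Pr k]
      exact_mod_cast h
    have hbad := bad_le k r w hk hw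
    have hK : (0 : ℝ) ≤ ((k : ℝ) * (k - 1)) ^ r := by
      rw [← card_Pr]; positivity
    have hb1 : ((univ.filter fun q : Fin r → Pr k => ¬ ∀ a,
          |(xc (fun i => (q i).1) a : ℝ) - 2 * r / k| ≤ w).card : ℝ) * w ^ 2 ≤
        (((k : ℝ) * (k - 1)) ^ r / 2) * w ^ 2 := by
      refine hbad.trans ?_
      nlinarith
    have hb2 := le_of_mul_le_mul_right hb1 (by positivity : (0 : ℝ) < w ^ 2)
    linarith

theorem t_LBC : S_LBC := by
  intro k m s w D hk hsm hw hkw hmw hD hDw
  obtain ⟨r, rfl⟩ : ∃ r, m = r + s := ⟨m - s, by omega⟩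
  have hk1 : 1 ≤ k := by omega
  have hkpos : (0 : ℝ) < k := by positivity
  have hk4 : (4 : ℝ) ≤ k := by exact_mod_cast hk
  have hrw : 4 * (r : ℝ) ≤ w ^ 2 := by
    have : (r : ℝ) ≤ ((r + s : ℕ) : ℝ) := by push_cast; linarith [(Nat.cast_nonneg s : (0:ℝ) ≤ s)]
    linarith
  have hch := cheb k r w hk1 hw hrw
  -- extension
  have hext : ∀ q : Fin r → Pr k, (∀ a, |(xc (fun i => (q i).1) a : ℝ) - 2 * r / k| ≤ w) →
      ∃ e : Fin s → Fin k × Fin k, (∀ i, (e i).1 ≠ (e i).2) ∧
        ∀ a, xc (Fin.append (fun i => (q i).1) e) a = D a := by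
    intro q hq
    have hws : w ≤ s / k := by
      rw [le_div_iff₀ hkpos]; linarith
    have hle : ∀ a, xc (fun i => (q i).1) a ≤ D a := by
      intro a
      have h1 := abs_le.1 (hq a)
      have h2 := abs_le.1 (hDw a)
      have h3 : (2 : ℝ) * ((r + s : ℕ) : ℝ) / k = 2 * r / k + 2 * (s / k) := by
        push_cast; ring
      rw [h3] at h2
      have : (xc (fun i => (q i).1) a : ℝ) ≤ D a := by linarith [h1.2, h2.1]
      exact_mod_cast this
    have hup : ∀ a, D a - xc (fun i => (q i).1) a ≤ s := by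
      intro a
      have h1 := abs_le.1 (hq a)
      have h2 := abs_le.1 (hDw a)
      have h3 : (2 : ℝ) * ((r + s : ℕ) : ℝ) / k = 2 * r / k + 2 * (s / k) := by
        push_cast; ring
      rw [h3] at h2
      have h4 : (4 : ℝ) * (s / k) ≤ s := by
        rw [mul_div_assoc', div_le_iff₀ hkpos]
        have : (0 : ℝ) ≤ s := Nat.cast_nonneg s
        nlinarith
      have h5 : (D a : ℝ) - xc (fun i => (q i).1) a ≤ s := by linarith [h1.1, h2.2]
      have h6 : (D a : ℝ) ≤ s + xc (fun i => (q i).1) a := by linarith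
      have h7 : D a ≤ s + xc (fun i => (q i).1) a := by exact_mod_cast h6
      omega
    have hsum : ∑ a, (D a - xc (fun i => (q i).1) a) = 2 * s := by
      have h1 : ∑ a, ((D a - xc (fun i => (q i).1) a) + xc (fun i => (q i).1) a) = ∑ a, D a :=
        Finset.sum_congr rfl fun a _ => Nat.sub_add_cancel (hle a)
      rw [Finset.sum_add_distrib, sum_xc, hD] at h1
      omega
    obtain ⟨e, he1, he2⟩ := pairing s (fun a => D a - xc (fun i => (q i).1) a) hsum hup
    refine ⟨e, he1, fun a => ?_⟩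
    rw [xc_append, he2 a]
    have := hle a
    omega
  have : Nonempty (Fin k) := ⟨⟨0, by omega⟩⟩
  choose! e he1 he2 using hext
  have hcard : (univ.filter fun q : Fin r → Pr k =>
      ∀ a, |(xc (fun i => (q i).1) a : ℝ) - 2 * r / k| ≤ w).card ≤
      (univ.filter fun c : HE (r + s) → Fin k =>
        (∀ a, cnt c a = D a) ∧ ∀ j, c (j, false) ≠ c (j, true)).card := by
    refine Finset.card_le_card_of_injOn
      (fun q => eqv (Fin k) (r + s) (Fin.append (fun i => (q i).1) (e q))) ?_ ?_
    · intro q hq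
      have hq' := (mem_filter.1 (Finset.mem_coe.1 hq)).2
      refine Finset.mem_coe.2 (mem_filter.2 ⟨mem_univ _, fun a => ?_, fun j => ?_⟩)
      · rw [cnt_eqv, he2 q hq' a]
      · refine Fin.addCases (fun i => ?_) (fun i => ?_) j
        · simpa [eqv] using (q i).2
        · simpa [eqv] using he1 q hq' i
    · intro q _ q' _ hqq
      have h1 := (eqv (Fin k) (r + s)).injective hqq
      funext i
      have h2 := congrFun h1 (Fin.castAdd s i)
      simp only [Fin.append_left] at h2
      exact Subtype.ext h2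
  have hcard' : ((univ.filter fun q : Fin r → Pr k =>
      ∀ a, |(xc (fun i => (q i).1) a : ℝ) - 2 * r / k| ≤ w).card : ℝ) ≤
      ((univ.filter fun c : HE (r + s) → Fin k =>
        (∀ a, cnt c a = D a) ∧ ∀ j, c (j, false) ≠ c (j, true)).card : ℝ) := by
    exact_mod_cast hcard
  have hks : ((k : ℝ) * (k - 1)) ^ s ≤ (k : ℝ) ^ (2 * s) := by
    rw [pow_mul]
    refine pow_le_pow_left₀ (mul_nonneg hkpos.le (by linarith)) ?_ s
    nlinarith
  have hkk : (0 : ℝ) ≤ (k : ℝ) * (k - 1) := mul_nonneg hkpos.le (by linarith)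
  calc ((k : ℝ) * (k - 1)) ^ (r + s) = ((k : ℝ) * (k - 1)) ^ r * ((k : ℝ) * (k - 1)) ^ s :=
        pow_add _ _ _
    _ ≤ (2 * ((univ.filter fun q : Fin r → Pr k =>
      ∀ a, |(xc (fun i => (q i).1) a : ℝ) - 2 * r / k| ≤ w).card : ℝ)) * (k : ℝ) ^ (2 * s) :=
        mul_le_mul hch hks (pow_nonneg hkk _) (by positivity)
    _ ≤ (2 * ((univ.filter fun c : HE (r + s) → Fin k =>
        (∀ a, cnt c a = D a) ∧ ∀ j, c (j, false) ≠ c (j, true)).card : ℝ)) *
          (k : ℝ) ^ (2 * s) := by gcongr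
    _ = _ := by ring

end Pool.Agent.Run7.h59.DS.LBCp
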