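import Pool.Agent.Run7.h932.DS.Stm
import Pool.Agent.N404.LF.Fact

set_option autoImplicit false

/-! Piece UB of project DS: permutations and types. -/

namespace Pool.Agent.Run7.h59.DS

open Finset Classical
open _root_.Run7.h932.DS

theorem sum_cnt {X A : Type} [Fintype X] [Fintype A] (f : X → A) :
    ∑ a, cnt f a = Fintype.card X := by
  unfold cnt
  rw [← Finset.card_eq_sum_card_fiberwise (f := f) (s := univ) (t := univ)
    (fun _ _ => by simp)]
  simp

theorem fib_card' {X A : Type} [Fintype X] [DecidableEq X] [Fintype A] (f g : X → A) :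
    (univ.filter fun θ : Equiv.Perm X => f ∘ θ = g).card ≤ ∏ a, (cnt f a).factorial := by
  rcases (univ.filter fun θ : Equiv.Perm X => f ∘ θ = g).eq_empty_or_nonempty with h | ⟨r, hr⟩
  · rw [h, card_empty]; exact Nat.zero_le _
  · have hr' : f ∘ r = g := (mem_filter.1 hr).2
    have h1 : (univ.filter fun θ : Equiv.Perm X => f ∘ θ = g).card =
        (univ.filter fun θ : Equiv.Perm X => f ∘ θ = f).card := by
      refine Finset.card_equiv (Equiv.mulRight r⁻¹) fun θ => ?_
      simp only [mem_filter, mem_univ, true_and, Equiv.coe_mulRight]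
      rw [← hr']
      constructor
      · intro h
        funext x
        have := congrFun h (r⁻¹ x)
        simpa [Function.comp] using this
      · intro h
        funext x
        have := congrFun h (r x)
        simpa [Function.comp] using this
    rw [h1]
    have h2 := DomMulAct.stabilizer_card f
    rw [Fintype.card_subtype] at h2
    have h3 : ∀ a, Fintype.card {x // f x = a} = cnt f a := by
      intro a
      rw [Fintype.card_subtype]; rfl
    simp only [h3] at h2
    exact le_of_eq h2

/-- product over the positions of the weights -/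
theorem prod_cnt {X A : Type} [Fintype X] [Fintype A] (f : X → A) (p : A → ℝ) :
    ∏ x, p (f x) = ∏ a, p a ^ cnt f a := by
  unfold cnt
  rw [← Finset.prod_fiberwise_of_maps_to (s := univ) (t := univ) (g := f)
    (fun _ _ => mem_univ _)]
  refine Finset.prod_congr rfl fun a _ => ?_
  rw [Finset.prod_congr rfl fun x hx => by rw [(mem_filter.1 hx).2], Finset.prod_const]

/-- sequences of pairs -/
noncomputable def eqv (A : Type) (m : ℕ) : (Fin m → A × A) ≃ (HE m → A) where
  toFun q h := if h.2 then (q h.1).2 else (q h.1).1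
  invFun c j := (c (j, false), c (j, true))
  left_inv q := by
    funext j
    simp
  right_inv c := by
    funext h
    rcases h with ⟨j, b⟩
    cases b <;> simp

theorem seq_sum {A : Type} [Fintype A] (m : ℕ) (p : A → ℝ) (R : A → A → Prop) :
    ∑ c : HE m → A, (if ∀ j, R (c (j, false)) (c (j, true)) then ∏ h, p (c h) else 0) =
      (∑ a, ∑ b, if R a b then p a * p b else 0) ^ m := by
  rw [← Fintype.sum_prod_type' (f := fun a b => if R a b then p a * p b else 0),
    Fintype.sum_pow, ← Equiv.sum_comp (eqv A m)]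
  refine Finset.sum_congr rfl fun q _ => ?_
  by_cases h : ∀ j, R (q j).1 (q j).2
  · have h' : ∀ j, R (eqv A m q (j, false)) (eqv A m q (j, true)) := fun j => by
      simpa [eqv] using h j
    rw [if_pos h']
    rw [Fintype.prod_prod_type]
    refine Finset.prod_congr rfl fun j _ => ?_
    rw [if_pos (h j)]
    simp [eqv, mul_comm]
  · have h' : ¬ ∀ j, R (eqv A m q (j, false)) (eqv A m q (j, true)) := fun hh => h fun j => by
      simpa [eqv] using hh j
    rw [if_neg h']
    push Not at h
    obtain ⟨j, hj⟩ := h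
    symm
    apply Finset.prod_eq_zero (mem_univ j)
    rw [if_neg hj]

/-- the factorials -/
theorem fact_prod {A : Type} [Fintype A] (D : A → ℕ) (N : ℕ) (hN : ∑ a, D a = N) (hN1 : 1 ≤ N) :
    ∏ a, ((D a).factorial : ℝ) ≤ (N.factorial : ℝ) * (3 * ((N : ℝ) + 1)) ^ Fintype.card A *
      ∏ a, ((D a : ℝ) / N) ^ D a := by
  have hNpos : (0 : ℝ) < N := by exact_mod_cast hN1
  have hle : ∀ a, D a ≤ N := fun a => hN ▸ Finset.single_le_sum (fun _ _ => Nat.zero_le _)
    (mem_univ a)
  have h1 : (∏ a, ((D a).factorial : ℝ)) * Real.exp N =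
      ∏ a, (((D a).factorial : ℝ) * Real.exp (D a)) := by
    rw [Finset.prod_mul_distrib, ← Real.exp_sum, ← hN]
    push_cast
    rfl
  have h2 : ∏ a, (((D a).factorial : ℝ) * Real.exp (D a)) ≤
      ∏ a, (3 * ((N : ℝ) + 1) * (D a : ℝ) ^ D a) := by
    refine Finset.prod_le_prod (fun a _ => by positivity) fun a _ => ?_
    refine ((Pool.Agent.N404.LF.proof_FACT (D a)).2).trans ?_
    have : (D a : ℝ) ≤ N := by exact_mod_cast hle a
    gcongr
  have h3 : ∏ a, (3 * ((N : ℝ) + 1) * (D a : ℝ) ^ D a) =
      (3 * ((N : ℝ) + 1)) ^ Fintype.card A * (∏ a, ((D a : ℝ) / N) ^ D a) * (N : ℝ) ^ N := by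
    rw [Finset.prod_mul_distrib, Finset.prod_const, Finset.card_univ, mul_assoc]
    congr 1
    rw [← hN, ← Finset.prod_pow_eq_pow_sum, ← Finset.prod_mul_distrib, hN]
    refine Finset.prod_congr rfl fun a _ => ?_
    rw [← mul_pow, div_mul_cancel₀ _ hNpos.ne']
  have h4 := (Pool.Agent.N404.LF.proof_FACT N).1
  have hW : 0 ≤ ∏ a, ((D a : ℝ) / N) ^ D a := Finset.prod_nonneg fun a _ => by positivity
  have h5 : (∏ a, ((D a).factorial : ℝ)) * Real.exp N ≤
      ((N.factorial : ℝ) * (3 * ((N : ℝ) + 1)) ^ Fintype.card A *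
      ∏ a, ((D a : ℝ) / N) ^ D a) * Real.exp N := by
    rw [h1]
    refine h2.trans ?_
    rw [h3]
    calc (3 * ((N : ℝ) + 1)) ^ Fintype.card A * (∏ a, ((D a : ℝ) / N) ^ D a) * (N : ℝ) ^ N
        ≤ (3 * ((N : ℝ) + 1)) ^ Fintype.card A * (∏ a, ((D a : ℝ) / N) ^ D a) *
          (N.factorial * Real.exp N) := by gcongr
      _ = _ := by ring
  exact le_of_mul_le_mul_right h5 (Real.exp_pos _)

theorem t_UB : S_UB := by
  intro A _ m κ R hm
  set N : ℕ := 2 * m with hN
  have hNpos : (0 : ℝ) < N := by
    have : 0 < N := by omega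
    exact_mod_cast this
  have hN' : (2 * (m : ℝ)) = N := by rw [hN]; push_cast; ring
  have hsum : ∑ a, cnt κ a = N := by
    rw [sum_cnt κ]
    simp [hN, mul_comm]
  set p : A → ℝ := fun a => (cnt κ a : ℝ) / N with hp
  have hp0 : ∀ a, 0 ≤ p a := fun a => by positivity
  set W : ℝ := ∏ a, p a ^ cnt κ a with hW
  have hWpos : 0 < W := by
    refine Finset.prod_pos fun a _ => ?_
    by_cases h : cnt κ a = 0
    · rw [h]; simp
    · have : (0 : ℝ) < cnt κ a := by exact_mod_cast Nat.pos_of_ne_zero h
      have : 0 < p a := by positivity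
      positivity
  set S : ℝ := ∑ a, ∑ b, if R a b then p a * p b else 0 with hS
  have hS0 : 0 ≤ S := Finset.sum_nonneg fun a _ => Finset.sum_nonneg fun b _ => by
    split_ifs
    · exact mul_nonneg (hp0 a) (hp0 b)
    · exact le_rfl
  have key : ((univ.filter fun π : Equiv.Perm (HE m) =>
      ∀ j, R (κ (π (j, false))) (κ (π (j, true)))).card : ℝ) * W ≤
        (∏ a, ((cnt κ a).factorial : ℝ)) * S ^ m := by
    have e1 : ((univ.filter fun π : Equiv.Perm (HE m) =>
        ∀ j, R (κ (π (j, false))) (κ (π (j, true)))).card : ℝ) * W =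
        ∑ π : Equiv.Perm (HE m), (if ∀ j, R (κ (π (j, false))) (κ (π (j, true))) then
          ∏ h, p (κ (π h)) else 0) := by
      rw [← Finset.sum_filter, ← nsmul_eq_mul, ← Finset.sum_const]
      refine Finset.sum_congr rfl fun π _ => ?_
      rw [Equiv.prod_comp π (fun h => p (κ h)), prod_cnt κ p]
    have e2 : ∑ π : Equiv.Perm (HE m), (if ∀ j, R (κ (π (j, false))) (κ (π (j, true))) then
          ∏ h, p (κ (π h)) else 0) =
        ∑ c : HE m → A, ∑ π ∈ (univ.filter fun π : Equiv.Perm (HE m) => κ ∘ π = c),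
          (if ∀ j, R (c (j, false)) (c (j, true)) then ∏ h, p (c h) else 0) := by
      rw [← Finset.sum_fiberwise_of_maps_to (s := univ) (t := univ)
        (g := fun π : Equiv.Perm (HE m) => κ ∘ π) (fun _ _ => mem_univ _)]
      refine Finset.sum_congr rfl fun c _ => Finset.sum_congr rfl fun π hπ => ?_
      have hc : κ ∘ π = c := (mem_filter.1 hπ).2
      have hc' : ∀ h, κ (π h) = c h := fun h => congrFun hc h
      simp only [hc']
    rw [e1, e2, hS, ← seq_sum m p R, Finset.mul_sum]
    refine Finset.sum_le_sum fun c _ => ?_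
    rw [Finset.sum_const, nsmul_eq_mul]
    refine mul_le_mul_of_nonneg_right ?_ ?_
    · have := fib_card' κ c
      exact_mod_cast this
    · split_ifs
      · exact Finset.prod_nonneg fun h _ => hp0 _
      · exact le_rfl
  have hF := fact_prod (fun a => cnt κ a) N hsum (by omega)
  have fin : ((univ.filter fun π : Equiv.Perm (HE m) =>
      ∀ j, R (κ (π (j, false))) (κ (π (j, true)))).card : ℝ) * W ≤
        ((N.factorial : ℝ) * (3 * ((N : ℝ) + 1)) ^ Fintype.card A * S ^ m) * W := by
    refine key.trans ?_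
    calc (∏ a, ((cnt κ a).factorial : ℝ)) * S ^ m ≤
        ((N.factorial : ℝ) * (3 * ((N : ℝ) + 1)) ^ Fintype.card A * W) * S ^ m :=
          mul_le_mul_of_nonneg_right hF (pow_nonneg hS0 _)
      _ = _ := by ring
  have fin2 := le_of_mul_le_mul_right fin hWpos
  rw [hN']
  exact fin2

end Pool.Agent.Run7.h59.DS
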